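import Pool.Agent.Lib.H45Glue.K33
import Pool.Agent.Lib.H45Glue2.Rel3

/-!
# Gluing with a graph whose blocks are light or occur on the needed side
-/

namespace Pool.Agent.Results.MP_8df7ba_co.LightBlocks

open SimpleGraph Filter Asymptotics Pool.Agent.Lib.Helper15.Glue Pool.Agent.Lib.H45Glue
  Pool.Agent.Lib.H45Glue2

/-- `B` has two copies in `K` on different sides: for some vertex `b` of `B` the images of `b` are
joined by a walk of odd length in `K`. -/
def BothSides {W S : Type} (B : SimpleGraph W) (K : SimpleGraph S) : Prop :=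
  ∃ (j₁ j₂ : Copy B K) (b : W) (p : K.Walk (j₁ b) (j₂ b)), Odd p.length

/-- `H[B]` has a proper two-colouring, with classes `R` and `B \ R`, such that either there is a
subset `Ω` of `R` with at most `s` elements and every other vertex of `R` has at most `s`
neighbours in `B`, or there is a subset `Ω` of `B` with fewer than `s` elements in each of the
two classes and deleting `Ω` leaves a forest. -/
def Light {V : Type} (H : SimpleGraph V) (B : Set V) (s : ℕ) : Prop :=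
  ∃ R ⊆ B, (∀ x ∈ B, ∀ y ∈ B, H.Adj x y → (x ∈ R ↔ y ∉ R)) ∧
    ((∃ Ω ⊆ R, Ω.ncard ≤ s ∧ ∀ y ∈ R \ Ω, {x ∈ B | H.Adj y x}.ncard ≤ s) ∨
      (∃ Ω ⊆ B, (Ω ∩ R).ncard < s ∧ (Ω \ R).ncard < s ∧ (H.induce (B \ Ω)).IsAcyclic))

/-- `H₂[B]` has a copy in `H₁` on the same side: for some vertex `b` of `B` there are a walk from
`u` to the image of `b` in `H₁` and a walk from `v` to `b` in `H₂` of lengths of the same parity. -/
def SameSide {V₁ V₂ : Type} (H₁ : SimpleGraph V₁) (u : V₁) (H₂ : SimpleGraph V₂) (v : V₂)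
    (B : Set V₂) : Prop :=
  ∃ (j : Copy (H₂.induce B) H₁) (b : B) (p : H₁.Walk u (j b)) (q : H₂.Walk v b.1),
    (Even p.length ↔ Even q.length)

/-- The bound `n ^ (2 - 1 / s) = O(f(n))` in integers. -/
lemma big_of_isBigO {f : ℕ → ℕ} (hf : Adm f) {g : ℕ → ℕ} (hg : ∀ n, g n ≤ f n) (s : ℕ)
    (h : (fun n : ℕ => (n : ℝ) ^ (2 - 1 / ((s + 1 : ℕ) : ℝ))) =O[atTop]
      fun n : ℕ => (g n : ℝ)) : Big f s := by
  obtain ⟨c, hc⟩ := h.bound
  obtain ⟨N, hN⟩ := eventually_atTop.1 hc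
  refine ⟨⌈c⌉₊ + N ^ (2 * s + 1), fun n => ?_⟩
  rcases le_or_gt N n with hn | hn
  · have h1 := hN n hn
    rw [Real.norm_of_nonneg (by positivity), Real.norm_of_nonneg (by positivity)] at h1
    have h2 : (n : ℝ) ^ (2 - 1 / ((s + 1 : ℕ) : ℝ)) ≤ (⌈c⌉₊ : ℝ) * f n := by
      refine h1.trans ?_
      have h3 : c ≤ (⌈c⌉₊ : ℝ) := Nat.le_ceil c
      have h4 : (g n : ℝ) ≤ f n := by exact_mod_cast hg n
      calc c * (g n : ℝ) ≤ (⌈c⌉₊ : ℝ) * g n := mul_le_mul_of_nonneg_right h3 (by positivity)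
        _ ≤ _ := mul_le_mul_of_nonneg_left h4 (by positivity)
    have h5 : ((n : ℝ) ^ (2 - 1 / ((s + 1 : ℕ) : ℝ))) ^ (s + 1) = (n : ℝ) ^ (2 * s + 1) := by
      rw [← Real.rpow_natCast, ← Real.rpow_mul (by positivity), ← Real.rpow_natCast]
      congr 1
      have : ((s + 1 : ℕ) : ℝ) ≠ 0 := by positivity
      field_simp
      push_cast
      ring
    have h6 : (n : ℝ) ^ (2 * s + 1) ≤ ((⌈c⌉₊ : ℝ) * f n) ^ (s + 1) := by
      rw [← h5]
      exact pow_le_pow_left₀ (by positivity) h2 _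
    have h7 : n ^ (2 * s + 1) ≤ (⌈c⌉₊ * f n) ^ (s + 1) := by exact_mod_cast h6
    exact h7.trans (Nat.pow_le_pow_left (Nat.mul_le_mul_right _ (Nat.le_add_right _ _)) _)
  · rcases Nat.eq_zero_or_pos n with h0 | h0
    · subst h0
      rw [zero_pow (by omega)]
      exact Nat.zero_le _
    · have h1 : 1 ≤ f n := le_trans h0 (hf.lin n)
      calc n ^ (2 * s + 1) ≤ N ^ (2 * s + 1) := Nat.pow_le_pow_left hn.le _
        _ ≤ ⌈c⌉₊ + N ^ (2 * s + 1) := Nat.le_add_left _ _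
        _ ≤ (⌈c⌉₊ + N ^ (2 * s + 1)) * f n := Nat.le_mul_of_pos_right _ h1
        _ ≤ _ := Nat.le_self_pow (Nat.succ_ne_zero s) _

lemma esf_of_light {V : Type} [Finite V] {f : ℕ → ℕ} (hf : Adm f) {H : SimpleGraph V}
    {B : Set V} {s : ℕ} (hl : Light H B (s + 1)) (hbig : Big f s) (r : B) :
    ESF f (H.induce B) r := by
  classical
  have : Fintype V := Fintype.ofFinite V
  obtain ⟨R, hRB, hR, h⟩ := hl
  have hR' : ∀ x y : B, (H.induce B).Adj x y → (x ∈ {x : B | x.1 ∈ R} ↔ y ∉ {x : B | x.1 ∈ R}) :=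
    fun x y hxy => hR x.1 x.2 y.1 y.2 hxy
  have hcard : ∀ Ω : Set V, Ω ⊆ B → {x : B | x.1 ∈ Ω}.ncard = Ω.ncard := by
    intro Ω hΩ
    rw [← Set.ncard_image_of_injective _ Subtype.val_injective]
    congr 1
    ext x
    simp only [Set.mem_image, Set.mem_ofPred_eq, Subtype.exists, exists_and_left, exists_prop,
      exists_eq_right_right, and_iff_left_iff_imp]
    exact fun hx => hΩ hx
  rcases h with ⟨Ω, hΩR, h1, h2⟩ | ⟨Ω, hΩB, h1, h1', h2⟩
  · refine esf_of_oneSided hf (H.induce B) {x : B | x.1 ∈ R} {x : B | x.1 ∈ Ω}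
      (fun x hx => hΩR hx) hR' s (by rw [hcard Ω (hΩR.trans hRB)]; exact h1) ?_ hbig r
    intro y hy hyΩ
    refine le_trans ?_ (h2 y.1 ⟨hy, hyΩ⟩)
    rw [← Set.ncard_image_of_injective _ Subtype.val_injective]
    refine Set.ncard_le_ncard ?_ (Set.toFinite _)
    rintro _ ⟨x, hx, rfl⟩
    exact ⟨x.2, hx⟩
  · refine esf_of_forest hf (H.induce B) {x : B | x.1 ∈ R} {x : B | x.1 ∈ Ω} hR' s ?_ ?_ ?_ hbig r
    · have h3 := hcard (Ω ∩ R) (Set.inter_subset_left.trans hΩB)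
      have h4 : ({x : B | x.1 ∈ Ω} ∩ {x : B | x.1 ∈ R}) = {x : B | x.1 ∈ Ω ∩ R} := rfl
      rw [h4, h3]
      omega
    · have h3 := hcard (Ω \ R) (Set.sdiff_subset.trans hΩB)
      have h4 : ({x : B | x.1 ∈ Ω} \ {x : B | x.1 ∈ R}) = {x : B | x.1 ∈ Ω \ R} := rfl
      rw [h4, h3]
      omega
    · refine h2.comap (f := ⟨fun x => ⟨x.1.1, x.1.2, x.2⟩, fun {_ _} h => h⟩) ?_
      intro x y hxy
      have h3 : x.1.1 = y.1.1 := congrArg (fun z : (B \ Ω : Set V) => z.1) hxy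
      exact Subtype.ext (Subtype.ext h3)

/-- A graph with copies on different sides of a graph `K` with `ex(n, K) = O(f(n))`. -/
lemma esf_of_bothSides {S W : Type} {f : ℕ → ℕ} (hf : Adm f) {g : ℕ → ℕ} (hg : ∀ n, g n ≤ f n)
    {B : SimpleGraph W} {K : SimpleGraph S} (j₁ j₂ : Copy B K) (b : W)
    (p : K.Walk (j₁ b) (j₂ b)) (hp : Odd p.length)
    (hO : (fun n : ℕ => (extremalNumber n K : ℝ)) =O[atTop] fun n : ℕ => (g n : ℝ)) :
    ESF f B b := by
  classical
  obtain ⟨c, hc⟩ := hO.bound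
  obtain ⟨N, hN⟩ := eventually_atTop.1 hc
  refine ⟨⌈c⌉₊ + N, fun n G P hP hcop => ?_⟩
  have hfree : K.Free G := by
    rintro ⟨d⟩
    have h1 : d (j₁ b) ∈ P := hcop (d.comp j₁)
    have h2 : d (j₂ b) ∈ P := hcop (d.comp j₂)
    exact ((proper_walk hP d p).1 hp).1 h1 h2
  have h1 := card_edgeFinset_le_extremalNumber hfree
  rw [Fintype.card_fin, ← ncard_edgeSet] at h1
  rcases le_or_gt N n with hn | hn
  · have h2 := hN n hn
    rw [Real.norm_of_nonneg (by positivity), Real.norm_of_nonneg (by positivity)] at h2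
    have h3 : (extremalNumber n K : ℝ) ≤ (⌈c⌉₊ * g n : ℕ) := by
      rw [Nat.cast_mul]
      exact h2.trans (mul_le_mul_of_nonneg_right (Nat.le_ceil c) (by positivity))
    have h4 : extremalNumber n K ≤ ⌈c⌉₊ * g n := by exact_mod_cast h3
    calc G.edgeSet.ncard ≤ ⌈c⌉₊ * g n := h1.trans h4
      _ ≤ ⌈c⌉₊ * f n := Nat.mul_le_mul_left _ (hg n)
      _ ≤ _ := Nat.mul_le_mul_right _ (Nat.le_add_right _ _)
  · calc G.edgeSet.ncard ≤ n ^ 2 := h1.trans (extremalNumber_le_sq K n)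
      _ = n * n := sq n
      _ ≤ N * f n := Nat.mul_le_mul hn.le (hf.lin n)
      _ ≤ _ := Nat.mul_le_mul_right _ (Nat.le_add_left _ _)

/-- If `H` is not bipartite then `n ^ 2 = O(ex(n, H) + n)`. -/
lemma sq_le_of_not_colorable {V : Type} {H : SimpleGraph V} (hH : ¬ H.Colorable 2) (n : ℕ) :
    n ^ 2 ≤ 4 * (extremalNumber n H + 1) := by
  classical
  have hfree : H.Free (turanGraph n 2) := by
    rintro ⟨c⟩
    refine hH ⟨(Coloring.mk (fun w => (⟨w.1 % 2, Nat.mod_lt _ (by norm_num)⟩ : Fin 2))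
      (fun {a b} hab h => hab (congrArg Fin.val h)) : (turanGraph n 2).Coloring (Fin 2)).comp
      c.toHom⟩
  have h1 := card_edgeFinset_le_extremalNumber hfree
  rw [Fintype.card_fin, card_edgeFinset_turanGraph] at h1
  have h2 : n % 2 < 2 := Nat.mod_lt _ (by norm_num)
  have h3 : (n % 2) ^ 2 ≤ 1 := by
    interval_cases (n % 2) <;> norm_num
  have h4 : (n ^ 2 - (n % 2) ^ 2) * (2 - 1) / (2 * 2) ≤ extremalNumber n H := by omega
  omega

/-- Let `H₁` and `H₂` be finite graphs with `e(H₁) ≥ 1`, `e(H₂) ≥ 1`, `e(H₁) + e(H₂) ≥ 3`.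
Suppose that every 2-connected block `B` of `H₂` satisfies one of the following:
(a) `B` has copies on different sides of some finite graph `K` with
`ex(n, K) = O(ex(n, H₁) + ex(n, H₂))` (for instance `K = H₁`, `K = H₂` or `K = B`);
(b) for some `s ≥ 1` the block `B` is `s`-light, and
`n ^ (2 - 1 / s) = O(ex(n, H₁) + ex(n, H₂))`;
(c) `B` is `2`-light and `H₁` or `H₂` contains a four-cycle;
(d) `B` is `3`-light and `H₁` or `H₂` contains `K_{3,3}`;
(e) `B` has a copy in `H₁` on the same side (`u` and `v` being on one side).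
Then for all `u` and `v` the glued graph satisfies
`ex(n, F) = Θ(ex(n, H₁) + ex(n, H₂))`. -/
theorem result {V₁ V₂ : Type} [Fintype V₁] [Fintype V₂] (H₁ : SimpleGraph V₁)
    (H₂ : SimpleGraph V₂) (u : V₁) (v : V₂)
    (h₁ : 1 ≤ H₁.edgeSet.ncard) (h₂ : 1 ≤ H₂.edgeSet.ncard)
    (h₃ : 3 ≤ H₁.edgeSet.ncard + H₂.edgeSet.ncard)
    (hB : ∀ B : Set V₂, IsBlock H₂ B →
      (∃ (S : Type) (_ : Fintype S) (K : SimpleGraph S), BothSides (H₂.induce B) K ∧
        (fun n : ℕ => (extremalNumber n K : ℝ)) =O[atTop]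
          fun n : ℕ => (extremalNumber n H₁ + extremalNumber n H₂ : ℝ)) ∨
      (∃ s : ℕ, 1 ≤ s ∧ Light H₂ B s ∧
        (fun n : ℕ => (n : ℝ) ^ (2 - 1 / (s : ℝ))) =O[atTop]
          fun n : ℕ => (extremalNumber n H₁ + extremalNumber n H₂ : ℝ)) ∨
      (Light H₂ B 2 ∧ (HasFourCycle H₁ ∨ HasFourCycle H₂)) ∨
      (Light H₂ B 3 ∧ (HasK33 H₁ ∨ HasK33 H₂)) ∨
      SameSide H₁ u H₂ v B) :
    (fun n : ℕ => (extremalNumber n (glue H₁ u H₂ v) : ℝ)) =Θ[atTop]
      fun n : ℕ => (extremalNumber n H₁ + extremalNumber n H₂ : ℝ) := by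
  classical
  by_cases hbip : H₂.Colorable 2
  swap
  · refine isTheta_of_le h₁ h₂ h₃ (C := 4) fun n => ?_
    rcases Nat.eq_zero_or_pos n with h0 | h0
    · subst h0
      have h9 := extremalNumber_le_sq (glue H₁ u H₂ v) 0
      omega
    · have h4 := sq_le_of_not_colorable hbip n
      have h5 := extremalNumber_le_sq (glue H₁ u H₂ v) n
      omega
  obtain ⟨col⟩ := hbip
  set T : Set V₂ := {w | col w ≠ col v} with hTdef
  have hvT : v ∉ T := by simp [hTdef]
  have hT : ∀ a b, H₂.Adj a b → (a ∈ T ↔ b ∉ T) := by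
    intro a b hab
    have h := col.valid hab
    have key : ∀ x y z : Fin 2, x ≠ y → (x ≠ z ↔ ¬ y ≠ z) := by decide
    exact key _ _ _ h
  set g : ℕ → ℕ := fun n => extremalNumber n H₁ + extremalNumber n H₂ with hg
  set f : ℕ → ℕ := hull g with hf
  have hadm : Adm f := adm_hull g
  have hgf : ∀ n, g n ≤ f n := le_hull g
  have hd₁ : ∀ n, extremalNumber n H₁ ≤ f n := fun n => (Nat.le_add_right _ _).trans (hgf n)
  have hd₂ : ∀ n, extremalNumber n H₂ ≤ f n := fun n => (Nat.le_add_left _ _).trans (hgf n)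
  have h5 : (fun n : ℕ => (g n : ℝ)) =
      fun n : ℕ => (extremalNumber n H₁ + extremalNumber n H₂ : ℝ) := by
    funext n
    simp [hg]
  have hside : ∀ {b : V₂} (q : H₂.Walk v b), (b ∉ T ↔ Even q.length) := by
    intro b q
    have h := side_walk hT q
    rcases Nat.even_or_odd q.length with h6 | h6
    · have := h.2 h6
      tauto
    · have := h.1 h6
      have h7 : ¬ Even q.length := Nat.not_even_iff_odd.2 h6
      tauto
  have hES : Rel f H₁ u H₂ v H₂ T := by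
    refine rel_of_isBlock hadm H₂ hT fun B hBB => ?_
    have hTB : ∀ a b : B, (H₂.induce B).Adj a b →
        (a ∈ {w : B | w.1 ∈ T} ↔ b ∉ {w : B | w.1 ∈ T}) := fun a b hab => hT a.1 b.1 hab
    have hcon : (H₂.induce B).Connected := hBB.prop.2.1
    obtain ⟨r⟩ := hcon.nonempty
    rcases hB B hBB with ⟨S, _, K, ⟨j₁, j₂, b, p, hp⟩, hO⟩ | ⟨s, hs, hos, hO⟩ | ⟨hos, h4⟩ |
      ⟨hos, h4⟩ | ⟨j, b, p, q, hpq⟩
    · rw [← h5] at hO
      exact rel_of_esf hTB hcon.preconnected b (esf_of_bothSides hadm hgf j₁ j₂ b p hp hO)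
    · obtain ⟨s, rfl⟩ : ∃ t, s = t + 1 := ⟨s - 1, by omega⟩
      rw [← h5] at hO
      exact rel_of_esf hTB hcon.preconnected r
        (esf_of_light hadm hos (big_of_isBigO hadm hgf s hO) r)
    · refine rel_of_esf hTB hcon.preconnected r (esf_of_light hadm hos ?_ r)
      rcases h4 with h4 | h4
      · exact big_of_C4 hadm hd₁ h4
      · exact big_of_C4 hadm hd₂ h4
    · refine rel_of_esf hTB hcon.preconnected r (esf_of_light hadm hos ?_ r)
      rcases h4 with h4 | h4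
      · exact big_of_K33 hadm hd₁ h4
      · exact big_of_K33 hadm hd₂ h4
    · refine rel_of_left hd₁ hTB hcon.preconnected j b p ?_
      rw [hpq]
      exact hside q
  obtain ⟨C, hC⟩ := hES.extremalNumber_glue_le hadm hvT hd₁ hd₂
  set D := Fintype.card V₁ ^ 2 + Fintype.card V₂ ^ 2 with hD
  refine isTheta_of_le h₁ h₂ h₃ (C := C * (D + 1)) fun n => ?_
  have h6 : f n ≤ g n + D + n := by
    refine hull_le g n D fun k hk => ?_
    have h7 := extremalNumber_le_add H₁ hk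
    have h8 := extremalNumber_le_add H₂ hk
    simp only [hg]
    omega
  rcases Nat.eq_zero_or_pos n with h0 | h0
  · subst h0
    have h9 := extremalNumber_le_sq (glue H₁ u H₂ v) 0
    omega
  · refine (hC n).trans ?_
    rw [mul_assoc]
    refine Nat.mul_le_mul_left _ (h6.trans ?_)
    have h10 : D ≤ D * n := Nat.le_mul_of_pos_right _ h0
    have h11 : g n = extremalNumber n H₁ + extremalNumber n H₂ := rfl
    rw [← h11]
    nlinarith [Nat.zero_le (D * g n)]

end Pool.Agent.Results.MP_8df7ba_co.LightBlocks
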