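import Pool.Agent.Lib.Helper15.Glue.Theta

/-!
# The order of magnitude of the extremal number of an arbitrary glued graph
-/

namespace Pool.Agent.Results.MP_8df7ba_co.PairFormula

open SimpleGraph Filter Asymptotics Pool.Agent.Lib.Helper15.Glue

/-- For all finite graphs `H₁`, `H₂` with `e(H₁) ≥ 1`, `e(H₂) ≥ 1`, `e(H₁) + e(H₂) ≥ 3` and all
`u`, `v`, the extremal number of the glued graph has the order of
`ex(n, H₁) + ex(n, H₂) + z(n)`, where `z(n)` is the largest number of edges of a bipartite graph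
on at most `n` vertices with classes `P` and `Q` which contains no copy of `H₁` with `u` in `P`
and no copy of `H₂` with `v` in `Q`. -/
theorem result {V₁ V₂ : Type} [Fintype V₁] [Fintype V₂] (H₁ : SimpleGraph V₁)
    (H₂ : SimpleGraph V₂) (u : V₁) (v : V₂)
    (h₁ : 1 ≤ H₁.edgeSet.ncard) (h₂ : 1 ≤ H₂.edgeSet.ncard)
    (h₃ : 3 ≤ H₁.edgeSet.ncard + H₂.edgeSet.ncard) :
    (fun n : ℕ => (extremalNumber n (glue H₁ u H₂ v) : ℝ)) =Θ[atTop]
      fun n : ℕ => (extremalNumber n H₁ + extremalNumber n H₂ + zStar H₁ u H₂ v n : ℝ) := by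
  classical
  constructor
  · set w₁ := Fintype.card V₁ with hw₁
    set w₂ := Fintype.card V₂ with hw₂
    refine IsBigO.of_bound ((4 ^ w₁ * (w₁ ^ 2 + w₂ ^ 2 + 1) + 4 * w₁ : ℕ) : ℝ) ?_
    filter_upwards [eventually_ge_atTop 2] with n hn
    have hl := le_mul_add h₁ h₂ h₃ n hn
    have h4 := extremalNumber_glue_le H₁ u H₂ v n
    rw [← hw₁, ← hw₂] at h4
    generalize extremalNumber n (glue H₁ u H₂ v) = e at *
    generalize extremalNumber n H₁ = x at *
    generalize extremalNumber n H₂ = y at *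
    generalize zStar H₁ u H₂ v n = z at *
    have hxy : 1 ≤ x + y + z := by omega
    have h5 : x + w₁ ^ 2 + (y + w₂ ^ 2) + z ≤ (w₁ ^ 2 + w₂ ^ 2 + 1) * (x + y + z) := by
      nlinarith [Nat.mul_le_mul_left (w₁ ^ 2 + w₂ ^ 2) hxy]
    have h6 : w₁ * n ≤ 4 * w₁ * (x + y + z) := by
      calc w₁ * n ≤ w₁ * (4 * (x + y)) := Nat.mul_le_mul_left _ hl
        _ ≤ w₁ * (4 * (x + y + z)) := Nat.mul_le_mul_left _ (by omega)
        _ = 4 * w₁ * (x + y + z) := by ring
    have h7 : e ≤ (4 ^ w₁ * (w₁ ^ 2 + w₂ ^ 2 + 1) + 4 * w₁) * (x + y + z) := by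
      calc e ≤ 4 ^ w₁ * (x + w₁ ^ 2 + (y + w₂ ^ 2) + z) + w₁ * n := h4
        _ ≤ 4 ^ w₁ * ((w₁ ^ 2 + w₂ ^ 2 + 1) * (x + y + z)) + 4 * w₁ * (x + y + z) :=
          Nat.add_le_add (Nat.mul_le_mul_left _ h5) h6
        _ = _ := by ring
    have h8 : (e : ℝ) ≤ ((4 ^ w₁ * (w₁ ^ 2 + w₂ ^ 2 + 1) + 4 * w₁ : ℕ) : ℝ) *
        ((x : ℝ) + y + z) := by exact_mod_cast h7
    rw [Real.norm_of_nonneg (by positivity), Real.norm_of_nonneg (by positivity)]
    exact h8
  · set w := Fintype.card (V₁ ⊕ {x : V₂ // x ≠ v}) with hw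
    refine IsBigO.of_bound ((w ^ 2 + 3 : ℕ) : ℝ) ?_
    filter_upwards [eventually_ge_atTop 2] with n hn
    have hl := le_mul_add h₁ h₂ h₃ n hn
    have h4 := add_le_extremalNumber_glue H₁ u H₂ v n
    have h5 := zStar_le (unavoidable_glue H₁ u H₂ v) n
    rw [← hw] at h5
    generalize extremalNumber n (glue H₁ u H₂ v) = e at *
    generalize extremalNumber n H₁ = x at *
    generalize extremalNumber n H₂ = y at *
    generalize zStar H₁ u H₂ v n = z at *
    have h6 : x + y + z ≤ (w ^ 2 + 3) * e := by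
      have he : 1 ≤ e := by omega
      nlinarith [Nat.mul_le_mul_left (w ^ 2) he]
    have h7 : ((x : ℝ) + y + z) ≤ ((w ^ 2 + 3 : ℕ) : ℝ) * e := by exact_mod_cast h6
    rw [Real.norm_of_nonneg (by positivity), Real.norm_of_nonneg (by positivity)]
    exact h7

end Pool.Agent.Results.MP_8df7ba_co.PairFormula
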