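import Pool.Agent.Lib.Helper15.Glue.Theta

/-!
# The gluing question is equivalent to its case of a 2-connected graph glued along an edge
-/

namespace Pool.Agent.Results.MP_8df7ba_co.TwoConnectedReduction

open SimpleGraph Filter Asymptotics Pool.Agent.Lib.Helper15.Glue

/-- The full question Q1. -/
def Question : Prop :=
  ∀ (V₁ V₂ : Type) [Fintype V₁] [Fintype V₂] (H₁ : SimpleGraph V₁) (H₂ : SimpleGraph V₂)
    (u : V₁) (v : V₂), H₁.Colorable 2 → H₂.Colorable 2 →
    1 ≤ H₁.edgeSet.ncard → 1 ≤ H₂.edgeSet.ncard → 3 ≤ H₁.edgeSet.ncard + H₂.edgeSet.ncard →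
    (fun n : ℕ => (extremalNumber n (glue H₁ u H₂ v) : ℝ)) =Θ[atTop]
      fun n : ℕ => (extremalNumber n H₁ + extremalNumber n H₂ : ℝ)

/-- The special case: `H` is a 2-connected bipartite graph, `x y` is an edge of `H`, and two
copies of `H` are glued by merging `x` in the first with `y` in the second. -/
def TwoConnectedCase : Prop :=
  ∀ (W : Type) [Fintype W] (H : SimpleGraph W) (x y : W), H.Colorable 2 →
    TwoConn H Set.univ → H.Adj x y →
    (fun n : ℕ => (extremalNumber n (glue H x H y) : ℝ)) =O[atTop]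
      fun n : ℕ => (extremalNumber n H : ℝ)

/-- A 2-connected set of vertices induces a 2-connected graph. -/
lemma twoConn_univ {W : Type*} {H : SimpleGraph W} {B : Set W} (hB : TwoConn H B) :
    TwoConn (H.induce B) Set.univ := by
  refine ⟨?_, ?_, ?_⟩
  · rw [Set.ncard_univ]
    exact hB.1
  · exact (SimpleGraph.Iso.connected_iff (induceUnivIso (H.induce B))).2 hB.2.1
  · intro x _
    have h1 := hB.2.2 x.1 x.2
    let e : (H.induce B).induce (Set.univ \ {x}) ≃g H.induce (B \ {x.1}) :=
      { toFun := fun y => ⟨y.1.1, y.1.2, fun h => y.2.2 (Subtype.ext h)⟩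
        invFun := fun y => ⟨⟨y.1, y.2.1⟩, trivial, fun h => y.2.2 (congrArg Subtype.val h)⟩
        left_inv := fun _ => rfl
        right_inv := fun _ => rfl
        map_rel_iff' := Iff.rfl }
    exact (SimpleGraph.Iso.connected_iff e).2 h1

lemma edges_of_twoConn {W : Type*} [Finite W] {H : SimpleGraph W}
    (h : TwoConn H Set.univ) : 2 ≤ H.edgeSet.ncard := by
  have h3 := h.1
  obtain ⟨r⟩ : Nonempty W := by
    by_contra hcon
    rw [not_nonempty_iff] at hcon
    have : (Set.univ : Set W) = ∅ := Set.univ_eq_empty_iff.2 hcon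
    rw [this, Set.ncard_empty] at h3
    omega
  -- every vertex has a neighbour, and there are at least three vertices
  obtain ⟨x, hx⟩ := h.exists_adj ⟨r, trivial⟩
  have hxr : H.Adj x.1 r := hx
  have hex : ∃ s : W, s ≠ x.1 ∧ s ≠ r := by
    by_contra hcon
    push Not at hcon
    have hsub : (Set.univ : Set W) ⊆ {x.1, r} := by
      intro s _
      by_cases hs : s = x.1
      · exact Or.inl hs
      · exact Or.inr (hcon s hs)
    have h4 := Set.ncard_le_ncard hsub (Set.toFinite _)
    have h5 : ({x.1, r} : Set W).ncard ≤ ({r} : Set W).ncard + 1 := Set.ncard_insert_le _ _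
    rw [Set.ncard_singleton] at h5
    omega
  obtain ⟨s, hs1, hs2⟩ := hex
  obtain ⟨y, hy⟩ := h.exists_adj ⟨s, trivial⟩
  have hys : H.Adj y.1 s := hy
  have hne : s(x.1, r) ≠ s(y.1, s) := by
    intro heq
    have h6 : s ∈ s(x.1, r) := heq ▸ Sym2.mem_mk_right _ _
    rcases Sym2.mem_iff.1 h6 with h7 | h7
    · exact hs1 h7
    · exact hs2 h7
  exact Nat.succ_le_of_lt ((Set.one_lt_ncard_iff (Set.toFinite _)).2
    ⟨_, _, hxr, hys, hne⟩)

/-- The question Q1 holds in full if and only if it holds for two copies of a 2-connected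
bipartite graph glued at the two ends of an edge. -/
theorem result : Question ↔ TwoConnectedCase := by
  constructor
  · intro hQ W _ H x y hc htc hxy
    have he := edges_of_twoConn htc
    have h1 := (hQ W W H H x y hc hc (by omega) (by omega) (by omega)).isBigO
    refine h1.trans (IsBigO.of_bound 2 (Eventually.of_forall fun n => ?_))
    rw [Real.norm_of_nonneg (by positivity), Real.norm_of_nonneg (by positivity)]
    linarith
  · intro hT V₁ V₂ _ _ H₁ H₂ u v _ hc₂ h₁ h₂ h₃
    refine isTheta_of_esAt h₁ h₂ h₃ (Or.inr (esAt_of_isBlock H₂ (fun B hB r => ?_) v))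
    obtain ⟨x, hx⟩ := hB.prop.exists_adj r
    have : Fintype B := Fintype.ofFinite B
    refine esAt_of_isBigO hx (hT B (H₂.induce B) x r ?_ (twoConn_univ hB.prop) hx)
    exact hc₂.of_hom (Embedding.induce B).toHom

end Pool.Agent.Results.MP_8df7ba_co.TwoConnectedReduction
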